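import Pool.Agent.Helper72.EP.Spec1

/-! The iteration step for states. -/

namespace ErdPos

open Finset

section
variable {V : Type} [DecidableEq V] {G : SimpleGraph V} {F : Finset V → Prop}

theorem itr1_len {R B : Finset V} {ρ : List V} (h : Prom G F R B ρ) : ρ.length ≤ 4 := by
  rcases ρ with _ | ⟨a, _ | ⟨b, _ | ⟨c, _ | ⟨d, _ | ⟨e, l⟩⟩⟩⟩⟩
  · simp
  · simp
  · simp
  · simp
  · simp
  · exact h.elim

omit [DecidableEq V] in
theorem itr1_sum (O : List (Finset V × List V)) (h : ∀ o ∈ O, o.2.length ≤ 4) :
    (O.map Prod.snd).flatten.length ≤ 4 * O.length := by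
  induction O with
  | nil => simp
  | cons o O ih =>
    have h1 := h o List.mem_cons_self
    have h2 := ih (fun o' ho' => h o' (List.mem_cons_of_mem _ ho'))
    simp only [List.map_cons, List.flatten_cons, List.length_append, List.length_cons]
    omega


omit [DecidableEq V] in
theorem itr1_one (O : List (Finset V × List V)) (hn : (O.map Prod.snd).flatten.Nodup)
    (p : Finset V × List V → Bool) (t : V) (hp : ∀ o ∈ O, p o = true → t ∈ o.2) :
    (O.filter p).length ≤ 1 := by
  induction O with
  | nil => simp
  | cons o O ih =>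
    simp only [List.map_cons, List.flatten_cons, List.nodup_append] at hn
    by_cases ho : p o = true
    · have h1 := hp o List.mem_cons_self ho
      have h2 : O.filter p = [] := by
        rw [List.filter_eq_nil_iff]
        intro o' ho' hpo'
        have h3 := hp o' (List.mem_cons_of_mem _ ho') hpo'
        exact hn.2.2 t h1 t (List.mem_flatten.2 ⟨o'.2, List.mem_map.2 ⟨o', ho', rfl⟩, h3⟩) rfl
      rw [List.filter_cons_of_pos ho, h2]
      simp
    · rw [List.filter_cons_of_neg ho]
      exact ih hn.2.1 (fun o' ho' => hp o' (List.mem_cons_of_mem _ ho'))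

end

theorem st_ITR1 (h1 : ST_STEP) (h2 : ST_TRA) : ST_ITR1 := by
  classical
  intro V _ _ G F hF W0 W T O q x0 hS hH hq hLoc
  obtain ⟨hTW, hWW, hInd, hnd, hT, hO, hcong⟩ := hS
  have hsub : ∀ o ∈ O, ∀ t ∈ o.2, t ∈ T := fun o ho t ht =>
    (hT t).2 (List.mem_flatten.2 ⟨o.2, List.mem_map.2 ⟨o, ho, rfl⟩, ht⟩)
  have hTc : T.card ≤ 4 * O.length := by
    have e1 : T = (O.map Prod.snd).flatten.toFinset := by
      ext t
      rw [List.mem_toFinset]
      exact hT t
    rw [e1]
    exact (List.toFinset_card_le _).trans (itr1_sum O (fun o ho => itr1_len (hO o ho).2.2.2))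
  obtain ⟨C', K, ρ, L, z, hC', hbig, hnb, hK, hρn, hρK, hprom, hL, hLd, hI⟩ :=
    h1 V G F hF W T q x0 hTW hInd hH (by omega) hLoc
  have hLu : ∀ t ∈ T, ∀ t' ∈ T, ∀ x, x ∈ L t → x ∈ L t' → t = t' := by
    intro t ht t' ht' x hx hx'
    by_contra hne
    exact (Finset.disjoint_left.1 (hLd t ht t' ht' hne)) hx hx'
  have hLW : ∀ t ∈ T, ∀ x ∈ L t, x ∈ W ∧ x ∉ C' := fun t ht x hx =>
    mem_sdiff.1 ((hL t ht).2.2.2.1 hx)
  have hKm : ∀ x ∈ K, x ∈ W ∧ x ∉ T ∧ x ∉ C' := by
    intro x hx
    have e1 := mem_sdiff.1 (hK hx)
    have e2 := mem_sdiff.1 e1.1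
    exact ⟨e2.1, e2.2, e1.2⟩
  set T' : Finset V := T.image z ∪ ρ.toFinset with hT'
  have hT'm : ∀ x ∈ T', x ∈ W ∧ x ∉ C' := by
    intro x hx
    rcases mem_union.1 hx with h | h
    · obtain ⟨t, ht, rfl⟩ := mem_image.1 h
      exact hLW t ht _ (hL t ht).2.2.1
    · rw [List.mem_toFinset] at h
      have := hKm x (hρK x h)
      exact ⟨this.1, this.2.2⟩
  have hR : (C' ∪ T') \ T' = C' := by
    ext x
    rw [mem_sdiff, mem_union]
    constructor
    · rintro ⟨h | h, h'⟩
      · exact h
      · exact absurd h h'
    · exact fun h => ⟨Or.inl h, fun h' => (hT'm x h').2 h⟩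
  set g : Finset V × List V → Finset V × List V :=
    fun o => (o.1 ∪ o.2.toFinset.biUnion L, o.2.map z) with hg
  have hflat : (((K, ρ) :: O.map g).map Prod.snd).flatten =
      ρ ++ ((O.map Prod.snd).flatten).map z := by
    rw [List.map_cons, List.flatten_cons, List.map_map, List.map_flatten, List.map_map]
    rfl
  refine ⟨C' ∪ T', T', (K, ρ) :: O.map g, ⟨subset_union_right, ?_, hI, ?_, ?_, ?_, ?_⟩, ?_, ?_⟩
  · intro x hx
    rcases mem_union.1 hx with h | h
    · exact hWW (mem_sdiff.1 (hC' h)).1
    · exact hWW (hT'm x h).1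
  · rw [hflat, List.nodup_append]
    refine ⟨hρn, ?_, ?_⟩
    · apply List.Nodup.map_on _ hnd
      intro x hx y hy hxy
      have hx' := (hT x).2 hx
      have hy' := (hT y).2 hy
      exact hLu x hx' y hy' (z x) (hL x hx').2.2.1 (hxy ▸ (hL y hy').2.2.1)
    · intro x hx y hy hxy
      obtain ⟨t, ht, rfl⟩ := List.mem_map.1 hy
      have ht' := (hT t).2 ht
      exact (hL t ht').2.2.2.2 x hx (hxy ▸ (hL t ht').2.2.1)
  · intro x
    rw [hflat, List.mem_append, hT', mem_union, mem_image, List.mem_toFinset, List.mem_map]
    constructor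
    · rintro (⟨t, ht, rfl⟩ | h)
      · exact Or.inr ⟨t, (hT t).1 ht, rfl⟩
      · exact Or.inl h
    · rintro (h | ⟨t, ht, rfl⟩)
      · exact Or.inr h
      · exact Or.inl ⟨t, (hT t).2 ht, rfl⟩
  · intro o ho
    rw [hR]
    rcases List.mem_cons.1 ho with rfl | ho
    · refine ⟨fun x hx => hWW (hKm x hx).1, hρK, ?_, hprom⟩
      exact Finset.disjoint_left.2 fun x hx => (hKm x hx).2.2
    · obtain ⟨o', ho', rfl⟩ := List.mem_map.1 ho
      obtain ⟨e1, e2, e3, e4⟩ := hO o' ho'
      have hn : o'.2.Nodup := by
        have := List.nodup_flatten.1 hnd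
        exact this.1 _ (List.mem_map.2 ⟨o', ho', rfl⟩)
      refine ⟨?_, ?_, ?_, ?_⟩
      · intro x hx
        rcases mem_union.1 hx with h | h
        · exact e1 h
        · obtain ⟨t, ht, hxt⟩ := mem_biUnion.1 h
          exact hWW (hLW t (hsub o' ho' t (List.mem_toFinset.1 ht)) x hxt).1
      · intro x hx
        obtain ⟨t, ht, rfl⟩ := List.mem_map.1 hx
        exact mem_union_right _ (mem_biUnion.2 ⟨t, List.mem_toFinset.2 ht,
          (hL t (hsub o' ho' t ht)).2.2.1⟩)
      · rw [Finset.disjoint_left]
        intro x hx hxC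
        rcases mem_union.1 hx with h | h
        · exact (Finset.disjoint_left.1 e3) h (hC' hxC)
        · obtain ⟨t, ht, hxt⟩ := mem_biUnion.1 h
          exact (hLW t (hsub o' ho' t (List.mem_toFinset.1 ht)) x hxt).2 hxC
      · refine h2 V G F (W \ T) C' o'.1 o'.2 L z hn hC' e2 ?_ ?_ e4
        · intro t ht
          have htT := hsub o' ho' t ht
          obtain ⟨g1, g2, g3, g4, g5⟩ := hL t htT
          refine ⟨g1, g2, g3, ?_, ?_⟩
          · intro x hx
            rw [mem_sdiff, mem_singleton] at hx
            refine mem_sdiff.2 ⟨(hLW t htT x hx.1).1, fun hxT => hx.2 ?_⟩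
            exact hLu x hxT t htT x (hL x hxT).2.1 hx.1
          · exact Finset.disjoint_left.2 fun x hx => (hLW t htT x hx).2
        · intro t ht t' ht' hne
          exact hLd t (hsub o' ho' t ht) t' (hsub o' ho' t' ht') hne
  · intro v
    have hmap : ((O.map g).filter (fun o => decide (v ∈ o.1))).length =
        (O.filter (fun o => decide (v ∈ (g o).1))).length := by
      rw [List.filter_map, List.length_map]
      rfl
    by_cases hvW : v ∈ W
    · by_cases hvT : v ∈ T
      · have hvK : v ∉ K := fun h => (hKm v h).2.1 hvT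
        rw [List.filter_cons_of_neg (by simpa using hvK), hmap]
        have e : O.filter (fun o => decide (v ∈ (g o).1)) =
            O.filter (fun o => decide (v ∈ o.1)) := by
          apply List.filter_congr
          intro o ho
          rw [decide_eq_decide]
          constructor
          · intro h
            rcases mem_union.1 h with h | h
            · exact h
            · obtain ⟨t, ht, hvt⟩ := mem_biUnion.1 h
              have htm := List.mem_toFinset.1 ht
              have := hLu v hvT t (hsub o ho t htm) v (hL v hvT).2.1 hvt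
              rw [this]
              exact (hO o ho).2.1 t htm
          · exact fun h => mem_union_left _ h
        rw [e]
        exact hcong v
      · have e : (O.filter (fun o => decide (v ∈ (g o).1))).length ≤ 1 := by
          by_cases hex : ∃ t ∈ T, v ∈ L t
          · obtain ⟨t, htT, hvt⟩ := hex
            apply itr1_one O hnd _ t
            intro o ho hdec
            have h := of_decide_eq_true hdec
            rcases mem_union.1 h with h | h
            · exact absurd (mem_sdiff.2 ⟨hvW, hvT⟩) ((Finset.disjoint_left.1 (hO o ho).2.2.1) h)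
            · obtain ⟨t', ht', hvt'⟩ := mem_biUnion.1 h
              have htm := List.mem_toFinset.1 ht'
              rw [hLu t htT t' (hsub o ho t' htm) v hvt hvt']
              exact htm
          · have : O.filter (fun o => decide (v ∈ (g o).1)) = [] := by
              rw [List.filter_eq_nil_iff]
              intro o ho hdec
              have h := of_decide_eq_true hdec
              rcases mem_union.1 h with h | h
              · exact absurd (mem_sdiff.2 ⟨hvW, hvT⟩) ((Finset.disjoint_left.1 (hO o ho).2.2.1) h)
              · obtain ⟨t', ht', hvt'⟩ := mem_biUnion.1 h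
                exact hex ⟨t', hsub o ho t' (List.mem_toFinset.1 ht'), hvt'⟩
            rw [this]
            simp
        rw [List.filter_cons]
        split_ifs
        · rw [List.length_cons, hmap]
          omega
        · rw [hmap]
          omega
    · have hvK : v ∉ K := fun h => hvW (hKm v h).1
      rw [List.filter_cons_of_neg (by simpa using hvK), hmap]
      have e : O.filter (fun o => decide (v ∈ (g o).1)) =
          O.filter (fun o => decide (v ∈ o.1)) := by
        apply List.filter_congr
        intro o ho
        rw [decide_eq_decide]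
        constructor
        · intro h
          rcases mem_union.1 h with h | h
          · exact h
          · obtain ⟨t, ht, hvt⟩ := mem_biUnion.1 h
            exact absurd (hLW t (hsub o ho t (List.mem_toFinset.1 ht)) v hvt).1 hvW
        · exact fun h => mem_union_left _ h
      rw [e]
      exact hcong v
  · simp
  · intro n hn hht
    apply hn
    have e1 : bt G F W (Nb G W C') = C' := (hbig.isBt hH (by omega)).eq_bt
    have e2 : Ht F (bt G F W (Nb G W C')) n := by
      rw [e1]
      exact hht.mono subset_union_left le_rfl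
    exact (ht_of_bt hF hH (by omega : (Nb G W C').card ≤ 2 * q) e2).mono subset_rfl (by omega)

end ErdPos
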