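import Pool.Agent.Helper72.EP.Spec1

/-! One step of the construction. -/

namespace ErdPos

open Finset

section
variable {V : Type} [DecidableEq V] {G : SimpleGraph V} {F : Finset V → Prop}

theorem step_len {R B : Finset V} {ρ : List V} (h : Prom G F R B ρ) : ρ.length ≤ 4 := by
  rcases ρ with _ | ⟨a, _ | ⟨b, _ | ⟨c, _ | ⟨d, _ | ⟨e, l⟩⟩⟩⟩⟩
  · simp
  · simp
  · simp
  · simp
  · simp
  · exact h.elim

/-- a system of distinct members for `T` -/
theorem step_idx (T : Finset V) (L : Fin T.card → Finset V)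
    (hL : ∀ i, (L i ∩ T).Nonempty) (hd : ∀ i j, i ≠ j → Disjoint (L i) (L j)) :
    ∃ f : V → Fin T.card → Prop, (∀ t ∈ T, ∃ i, f t i) ∧ (∀ t i, f t i → t ∈ L i) ∧
      ∀ t t' i, f t i → f t' i → t = t' := by
  classical
  choose τ hτ using hL
  have hτL : ∀ i, τ i ∈ L i := fun i => (mem_inter.1 (hτ i)).1
  have hτT : ∀ i, τ i ∈ T := fun i => (mem_inter.1 (hτ i)).2
  have hinj : Function.Injective τ := by
    intro i j hij
    by_contra hne
    exact (Finset.disjoint_left.1 (hd i j hne)) (hτL i) (hij ▸ hτL j)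
  have himg : univ.image τ = T := by
    apply Finset.eq_of_subset_of_card_le
    · intro x hx
      obtain ⟨i, _, rfl⟩ := mem_image.1 hx
      exact hτT i
    · rw [card_image_of_injective _ hinj, card_univ, Fintype.card_fin]
  refine ⟨fun t i => τ i = t, fun t ht => ?_, fun t i h => h ▸ hτL i, fun t t' i h h' => ?_⟩
  · rw [← himg] at ht
    obtain ⟨i, _, hi⟩ := mem_image.1 ht
    exact ⟨i, hi⟩
  · exact h.symm.trans h'

end

theorem st_STEP (h1 : ST_RK1) (h2 : ST_RK2) (h3 : ST_IND) (h4 : ST_MENW) : ST_STEP := by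
  classical
  intro V _ _ G F hF W T q x0 hTW hInd hH hq hLoc
  obtain ⟨r_le_q, r_card, r_mono, r_ins, r_sub, r_big, r_ex⟩ := h1 V G F W q hH
  have hTq : T.card < q := by omega
  -- the rank of T
  have hrT : rk G F W q T = T.card := by
    apply le_antisymm (r_card T)
    obtain ⟨C, hC, hCT, hCn⟩ := r_ex T (lt_of_le_of_lt (r_card T) hTq)
    rw [← hCn]
    exact hInd C hC hCT
  obtain ⟨D, hTD, hDW, hclD, hrD, hIND⟩ := h3 V G F W q hH T hTW hrT (by omega)
  have hrDq : rk G F W q D < q := by omega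
  obtain ⟨_, _, _, hbigC, hnbC, _⟩ := h2 V G F W q hH D hDW hrDq
  rw [hclD] at hbigC hnbC
  obtain ⟨X, hXC, hXx, hX⟩ := hLoc (W \ D) hbigC (by omega)
  have hXW : X ⊆ W := hXC.trans sdiff_subset
  have hDXW : D ∪ X ⊆ W := union_subset hDW hXW
  have hrDX : rk G F W q (D ∪ X) < q := by
    have e1 := r_sub D X
    have e2 := r_card X
    omega
  obtain ⟨hPsub, hrP, _, hbig2, hnb2, hnb2P, _⟩ := h2 V G F W q hH (D ∪ X) hDXW hrDX
  set P : Finset V := cl G F W q (D ∪ X) with hP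
  have hPW : P ⊆ W := by
    rw [hP]; unfold cl; exact filter_subset _ _
  set C2 : Finset V := W \ P with hC2
  have hDP : D ⊆ P := subset_union_left.trans hPsub
  have hTP : T ⊆ P := hTD.trans hDP
  have hC2sub : C2 ⊆ (W \ D) \ X := by
    intro x hx
    rw [hC2, mem_sdiff] at hx
    exact mem_sdiff.2 ⟨mem_sdiff.2 ⟨hx.1, fun h => hx.2 (hDP h)⟩,
      fun h => hx.2 (hPsub (mem_union_right _ h))⟩
  obtain ⟨K, ρ, hK, hρn, hρ, hprom⟩ := hX C2 hC2sub hbig2.2.1 hbig2.2.2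
  set E : Finset V := ρ.toFinset with hE
  have hEcard : E.card ≤ 4 := (List.toFinset_card_le ρ).trans (step_len hprom)
  have hEmem : ∀ x ∈ E, x ∈ W ∧ x ∉ D ∧ x ∉ C2 ∧ x ∈ Nb G W C2 := by
    intro x hx
    rw [hE, List.mem_toFinset] at hx
    obtain ⟨hxK, hxA⟩ := hρ x hx
    have e1 := mem_sdiff.1 (hK hxK)
    have e2 := mem_sdiff.1 e1.1
    exact ⟨e2.1, e2.2, e1.2, mem_Nb.2 ⟨e2.1, e1.2, hxA⟩⟩
  have hEP : E ⊆ P := by
    intro x hx
    by_contra hxP
    exact (hEmem x hx).2.2.1 (mem_sdiff.2 ⟨(hEmem x hx).1, hxP⟩)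
  have hED : Disjoint E D := Finset.disjoint_left.2 fun x hx => (hEmem x hx).2.1
  have hrTE : rk G F W q (T ∪ E) = T.card + E.card :=
    hIND X hXW hrDX E (fun x hx => (hEmem x hx).2.2.2) hED hEcard
  have hC2P : ∀ x ∈ C2, x ∉ P := fun x hx => (mem_sdiff.1 hx).2
  -- the linkage
  obtain ⟨L, hL, hLd⟩ := h4 V G (P \ E) T (Nb G W C2 \ E) T.card
    (fun x hx => mem_sdiff.2 ⟨hTP hx, fun h => (hEmem x h).2.1 (hTD hx)⟩)
    (sdiff_subset_sdiff hnb2P subset_rfl) (by
      intro U hU hUd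
      by_contra hlt
      push Not at hlt
      set S : Finset V := Nb G (P \ E) U ∪ (T \ U) with hS
      have hScard : (S ∪ E).card < T.card + E.card := by
        have := card_union_le S E
        omega
      have hS2q : (S ∪ E).card ≤ 2 * q := by omega
      have hbt := hH.isBt hS2q
      set β := bt G F W (S ∪ E) with hβ
      have hSP : S ∪ E ⊆ P := by
        apply union_subset _ hEP
        apply union_subset
        · exact Nb_subset.trans sdiff_subset
        · exact sdiff_subset.trans hTP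
      have hC2β : C2 ⊆ β := hbig2.subset_bt hH hS2q
        (Finset.disjoint_left.2 fun x hx hxS => hC2P x hx (hSP hxS))
      have hmeet : ∃ t ∈ β, t ∈ T ∪ E := by
        by_contra hno
        push Not at hno
        have e1 := r_big (T ∪ E) β hbt.big (Finset.disjoint_left.2 hno)
        have e2 := card_le_card hbt.Nb_subset
        omega
      obtain ⟨t, htβ, htTE⟩ := hmeet
      have htS := (mem_sdiff.1 (hbt.1 htβ)).2
      have htT : t ∈ T := by
        rcases mem_union.1 htTE with h | h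
        · exact h
        · exact absurd (mem_union_right _ h) htS
      have htU : t ∈ U := by
        by_contra h
        exact htS (mem_union_left _ (mem_union_right _ (mem_sdiff.2 ⟨htT, h⟩)))
      obtain ⟨c, hc⟩ := hbig2.2.1.1
      have hne : U ∩ β ≠ β := by
        intro he
        have : c ∈ U ∩ β := by rw [he]; exact hC2β hc
        exact hC2P c hc (mem_sdiff.1 (hU (mem_inter.1 this).1)).1
      obtain ⟨a, ha, b, hb, hab⟩ := hbt.2.1.2 (U ∩ β) inter_subset_right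
        ⟨t, mem_inter.2 ⟨htU, htβ⟩⟩ hne
      rw [mem_sdiff, mem_inter] at hb
      have hbU : b ∉ U := fun h => hb.2 ⟨h, hb.1⟩
      have hbW := mem_sdiff.1 (hbt.1 hb.1)
      have haU := (mem_inter.1 ha).1
      have haP := mem_sdiff.1 (hU haU)
      by_cases hbP : b ∈ P
      · have hbE : b ∉ E := fun h => hbW.2 (mem_union_right _ h)
        exact hbW.2 (mem_union_left _ (mem_union_left _
          (mem_Nb.2 ⟨mem_sdiff.2 ⟨hbP, hbE⟩, hbU, a, haU, hab.symm⟩)))
      · have hbC2 : b ∈ C2 := mem_sdiff.2 ⟨hbW.1, hbP⟩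
        have haN : a ∈ Nb G W C2 := mem_Nb.2 ⟨hPW haP.1, fun h => hC2P a h haP.1, b, hbC2, hab⟩
        exact (Finset.disjoint_left.1 hUd) haU (mem_sdiff.2 ⟨haN, haP.2⟩))
  obtain ⟨f, hf1, hf2, hf3⟩ := step_idx T L (fun i => (hL i).2.2.1) hLd
  have hex : ∀ t : V, ∃ M : Finset V, ∃ z : V, t ∈ T → (∃ i, f t i ∧ M = L i) ∧ t ∈ M ∧
      z ∈ M ∧ z ∈ Nb G W C2 \ E := by
    intro t
    by_cases ht : t ∈ T
    · obtain ⟨i, hi⟩ := hf1 t ht
      obtain ⟨z, hz⟩ := (hL i).2.2.2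
      rw [mem_inter] at hz
      exact ⟨L i, z, fun _ => ⟨⟨i, hi, rfl⟩, hf2 t i hi, hz.1, hz.2⟩⟩
    · exact ⟨∅, t, fun h => absurd h ht⟩
  choose M z hMz using hex
  have hT2sub : T.image z ∪ E ⊆ Nb G W C2 := by
    apply union_subset
    · intro x hx
      obtain ⟨t, ht, rfl⟩ := mem_image.1 hx
      exact (mem_sdiff.1 (hMz t ht).2.2.2).1
    · exact fun x hx => (hEmem x hx).2.2.2
  refine ⟨C2, K, ρ, M, z, ?_, hbig2, ?_, ?_, hρn, fun x hx => (hρ x hx).1, hprom, ?_, ?_, ?_⟩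
  · intro x hx
    exact mem_sdiff.2 ⟨(mem_sdiff.1 hx).1, fun h => hC2P x hx (hTP h)⟩
  · omega
  · intro x hx
    have e1 := mem_sdiff.1 (hK hx)
    have e2 := mem_sdiff.1 e1.1
    exact mem_sdiff.2 ⟨mem_sdiff.2 ⟨e2.1, fun h => e2.2 (hTD h)⟩, e1.2⟩
  · intro t ht
    obtain ⟨⟨i, hi, hMi⟩, htM, hzM, hzN⟩ := hMz t ht
    have hLi := hL i
    rw [← hMi] at hLi
    refine ⟨hLi.2.1, htM, hzM, fun x hx => ?_, fun x hx hxM => ?_⟩
    · have e := mem_sdiff.1 (hLi.1 hx)
      exact mem_sdiff.2 ⟨hPW e.1, fun h => hC2P x h e.1⟩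
    · exact (mem_sdiff.1 (hLi.1 hxM)).2 (by rw [hE, List.mem_toFinset]; exact hx)
  · intro t ht t' ht' hne
    obtain ⟨⟨i, hi, hMi⟩, _⟩ := hMz t ht
    obtain ⟨⟨j, hj, hMj⟩, _⟩ := hMz t' ht'
    rw [hMi, hMj]
    apply hLd
    rintro rfl
    exact hne (hf3 t t' i hi hj)
  · intro C3 hC3 hC3d
    have hC3C2 : C3 ⊆ C2 := by
      intro x hx
      rcases mem_union.1 (hC3.1 hx) with h | h
      · exact h
      · exact absurd h ((Finset.disjoint_left.1 hC3d) hx)
    have hbig3 : Big G F W C3 := ⟨hC3C2.trans sdiff_subset, hC3.2.1, hC3.2.2⟩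
    have e1 := r_big P C3 hbig3 (Finset.disjoint_left.2 fun x hx => hC2P x (hC3C2 hx))
    have e2 : Nb G W C3 ⊆ Nb G (C2 ∪ (T.image z ∪ E)) C3 ∪
        (Nb G W C2 \ (T.image z ∪ E)) := by
      intro v hv
      rw [mem_Nb] at hv
      obtain ⟨hvW, hv3, hvA⟩ := hv
      by_cases hv2 : v ∈ C2
      · exact mem_union_left _ (mem_Nb.2 ⟨mem_union_left _ hv2, hv3, hvA⟩)
      · by_cases hvT : v ∈ T.image z ∪ E
        · exact mem_union_left _ (mem_Nb.2 ⟨mem_union_right _ hvT, hv3, hvA⟩)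
        · exact mem_union_right _ (mem_sdiff.2 ⟨mem_Nb.2 ⟨hvW, hv2, hvA.mono hC3C2⟩, hvT⟩)
    have e3 := (card_le_card e2).trans (card_union_le _ _)
    rw [card_sdiff_of_subset hT2sub] at e3
    have e4 := card_le_card hT2sub
    rw [hrP] at e1
    change (T.image z ∪ E).card ≤ (Nb G (C2 ∪ (T.image z ∪ E)) C3).card
    omega

end ErdPos
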